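import Pool.Agent.N54.MR.RecN

set_option autoImplicit false

/-!
# Record prime gaps around integers and, at the same time, around almost all dilates of arbitrary sequences

Let `x n = (ξ_1 g_1(n) + c_1(n), …, ξ_r g_r(n) + c_r(n))`, where `g_i`, `c_i` are ARBITRARY real sequences with
`g_i(n + 1) - g_i(n) ≥ n ^ (ρ - 1)` for large `n`. For almost all real `ξ` and for every `ε > 0`, for all large `N` and all
integers `a ≥ 0`, there are at least `N ^ (1 - ε)` integers `n` in `(N, 2 N]` such that no prime lies within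
`κ log N (log₂ N)² log₄ N / (log₃ N)²` of `n + a` or of any of the coordinates of `x n`. The same is true, uniformly, for all
images `(T x(n)) / b + β` with `T` a nonsingular integral matrix with entries at most `N ^ θ`, `1 ≤ b ≤ N ^ θ` and `β` any
real vector, as long as the coordinates are at least `N ^ ε`. The same for `ξ_i ^ g_i(n) + c_i(n)`, `ξ_i > 1`, and for
general families. So for almost all `ξ` there are record gaps around the integers `n` and around the real numbers `ξ n`,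
`ξ' n²`, … at the same time.

Proof: second moments over `ξ` (after helper668's theorem on `⌊ξ g(n)⌋`) give a power saving, for almost all `ξ`, in the
exponential sums at all small rational vectors with all small linear phases (`Pool.Agent.N54.MR.Small`); the joint covering
criterion of helper961 for vectors of real numbers together with an integer (`Pool.Agent.Y961.JR.crit_scaled1J`) is
applied to the family of all `n` for which the conclusion fails (`Pool.Agent.N54.MR.RecN`).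
-/

namespace Pool.Agent.Results.MP_2033ac_nt.IntegersAndDilates

open Finset Filter MeasureTheory

/-- the function `log x (log₂ x)² log₄ x / (log₃ x)²` -/
noncomputable def R (x : ℝ) : ℝ :=
  Real.log x * (Real.log (Real.log x)) ^ 2 * Real.log (Real.log (Real.log (Real.log x))) /
    (Real.log (Real.log (Real.log x))) ^ 2

/-- The functions `F 0, F 1, …` have continuous second derivatives; on `[u, v]` the first derivatives grow from `n` to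
`n + 1` by at least `n ^ (ρ - 1)` and the second derivatives do not decrease, for large `n`. -/
def Spread (ρ u v : ℝ) (F : ℕ → ℝ → ℝ) : Prop :=
  (∀ n, ContDiff ℝ 2 (F n)) ∧ ∃ n₀ : ℕ, ∀ n, n₀ ≤ n → ∀ x ∈ Set.Icc u v,
    (n : ℝ) ^ (ρ - 1) ≤ deriv (F (n + 1)) x - deriv (F n) x ∧
      deriv (deriv (F n)) x ≤ deriv (deriv (F (n + 1))) x

/-- The vector `(T x) / b + β`. -/
noncomputable def image {r : ℕ} (T : Matrix (Fin r) (Fin r) ℤ) (b : ℕ) (β x : Fin r → ℝ) : Fin r → ℝ :=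
  fun i => (∑ j, (T i j : ℝ) * x j) / b + β i

/-- No prime lies within `κ R N` of the real number `y`. -/
def Far (κ : ℝ) (N : ℕ) (y : ℝ) : Prop := ∀ q : ℕ, q.Prime → κ * R N < |(q : ℝ) - y|

/-- For all large `N`, all integers `a` with `N + a ≥ N ^ ε`, all nonsingular integral matrices `T` with entries at most
`N ^ θ` in absolute value, all `1 ≤ b ≤ N ^ θ` and all real vectors `β` for which the coordinates of `(T (x n)) / b + β` are
at least `N ^ ε` for all `n` in `(N, 2 N]`, at least `N ^ (1 - ε)` integers `n` in `(N, 2 N]` are such that no prime lies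
within `κ R N` of `n + a` or of any of the coordinates of `(T (x n)) / b + β`. -/
def RecordGaps {r : ℕ} (κ θ ε : ℝ) (x : ℕ → Fin r → ℝ) : Prop :=
  ∃ N₀ : ℕ, ∀ N : ℕ, N₀ ≤ N → ∀ (a : ℤ) (T : Matrix (Fin r) (Fin r) ℤ) (b : ℕ) (β : Fin r → ℝ),
    (N : ℝ) ^ ε ≤ N + a → T.det ≠ 0 → (∀ i j, |(T i j : ℝ)| ≤ (N : ℝ) ^ θ) → 1 ≤ b → (b : ℝ) ≤ (N : ℝ) ^ θ →
    (∀ n : ℕ, N < n → n ≤ 2 * N → ∀ i, (N : ℝ) ^ ε ≤ image T b β (x n) i) →
    (N : ℝ) ^ (1 - ε) ≤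
      ({n : ℕ | N < n ∧ n ≤ 2 * N ∧ Far κ N (n + a) ∧ ∀ i, Far κ N (image T b β (x n) i)}.ncard : ℝ)

section Aux

lemma gaps_of {r : ℕ} {κ θ ε : ℝ} {x : ℕ → Fin r → ℝ}
    (h : ∃ N₀ : ℕ, ∀ N : ℕ, N₀ ≤ N → ∀ (a : ℤ) (T : Matrix (Fin r) (Fin r) ℤ) (b : ℕ) (β : Fin r → ℝ),
        (N : ℝ) ^ ε ≤ (N : ℝ) + a →
        T.det ≠ 0 → (∀ i j, |(T i j : ℝ)| ≤ (N : ℝ) ^ θ) → 1 ≤ b → (b : ℝ) ≤ (N : ℝ) ^ θ →
        (∀ n : ℕ, N < n → n ≤ 2 * N → ∀ i, (N : ℝ) ^ ε ≤ (∑ j, (T i j : ℝ) * x n j) / b + β i) →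
        ∃ G : Finset ℕ, G ⊆ Finset.Ioc N (2 * N) ∧ (N : ℝ) ^ (1 - ε) ≤ (G.card : ℝ) ∧
          ∀ n ∈ G, (∀ q : ℕ, q.Prime → κ * R N < |(q : ℝ) - (n + a)|) ∧ ∀ i, ∀ q : ℕ, q.Prime →
            κ * R N < |(q : ℝ) - ((∑ j, (T i j : ℝ) * x n j) / b + β i)|) :
    RecordGaps κ θ ε x := by
  obtain ⟨N₀, h⟩ := h
  refine ⟨N₀, fun N hN a T b β h0 h1 h2 h3 h4 h5 => ?_⟩
  obtain ⟨G, hG1, hG2, hG3⟩ := h N hN a T b β h0 h1 h2 h3 h4 h5
  refine hG2.trans ?_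
  rw [← Set.ncard_coe_finset, Nat.cast_le]
  refine Set.ncard_le_ncard ?_ ((Set.finite_Iic (2 * N)).subset fun n hn => hn.2.1)
  intro n hn
  have hn' : n ∈ G := hn
  have g := Finset.mem_Ioc.1 (hG1 hn')
  exact ⟨g.1, g.2, (hG3 n hn').1, (hG3 n hn').2⟩

end Aux

/-- **Theorem.** -/
theorem result (r : ℕ) (hr : 1 ≤ r) (ρ : ℝ) (hρ : 0 < ρ) (hρ1 : ρ ≤ 1) :
    ∃ κ θ : ℝ → ℝ, (∀ ε : ℝ, 0 < ε → 0 < κ ε ∧ 0 < θ ε) ∧
      (∀ g c : Fin r → ℕ → ℝ, (∀ i, ∀ᶠ n : ℕ in atTop, (n : ℝ) ^ (ρ - 1) ≤ g i (n + 1) - g i n) →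
        ∀ᵐ ξ : Fin r → ℝ, ∀ ε : ℝ, 0 < ε → ε ≤ 1 →
          RecordGaps (κ ε) (θ ε) ε (fun n i => ξ i * g i n + c i n)) ∧
      (∀ (g : Fin r → ℕ → ℕ) (c : Fin r → ℕ → ℝ), (∀ i, StrictMono (g i)) →
        ∀ᵐ ξ : Fin r → ℝ, (∀ i, 1 < ξ i) → ∀ ε : ℝ, 0 < ε → ε ≤ 1 →
          RecordGaps (κ ε) (θ ε) ε (fun n i => ξ i ^ g i n + c i n)) ∧
      (∀ (u v : Fin r → ℝ) (F : Fin r → ℕ → ℝ → ℝ), (∀ i, Spread ρ (u i) (v i) (F i)) →
        ∀ᵐ ξ : Fin r → ℝ, (∀ i, ξ i ∈ Set.Ioc (u i) (v i)) → ∀ ε : ℝ, 0 < ε → ε ≤ 1 →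
          RecordGaps (κ ε) (θ ε) ε (fun n i => F i n (ξ i))) := by
  classical
  have hη := Pool.Agent.N54.MR.eta_pos hρ r
  have hη1 := Pool.Agent.N54.MR.eta_le hρ r
  have hex : ∀ ε : ℝ, ∃ κ θ : ℝ, 0 < κ ∧ 0 < θ ∧ (0 < ε → ε ≤ 1 →
      ∀ x : ℕ → Fin r → ℝ, Pool.Agent.N54.MR.SmallL (Pool.Agent.N54.MR.eta ρ r) (fun _ => True) x →
      RecordGaps κ θ ε x) := by
    intro ε
    by_cases h : 0 < ε ∧ ε ≤ 1
    · obtain ⟨κ, θ, hκ, hθ, hm⟩ := Pool.Agent.N54.MR.recN_of hr (Pool.Agent.N54.MR.eta ρ r) hη hη1 ε h.1 h.2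
      exact ⟨κ, θ, hκ, hθ, fun _ _ x hx => gaps_of (hm x hx)⟩
    · exact ⟨1, 1, one_pos, one_pos, fun h1 h2 => absurd ⟨h1, h2⟩ h⟩
  choose κ θ hκ hθ hm using hex
  refine ⟨κ, θ, fun ε _ => ⟨hκ ε, hθ ε⟩, ?_⟩
  obtain ⟨h1, h2, h3⟩ := Pool.Agent.N54.MR.three_small (r := r) (fun _ => True) hρ hρ1
    (fun x => ∀ ε : ℝ, 0 < ε → ε ≤ 1 → RecordGaps (κ ε) (θ ε) ε x)
    (fun x hx ε hε hε1 => hm ε hε hε1 x hx)
  exact ⟨h2, h3, h1⟩

end Pool.Agent.Results.MP_2033ac_nt.IntegersAndDilates
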